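import Pool.Agent.Helper85.BD.Final

/-!
# MP_8ad3e9_gt: first variations of the ball

The first variations of the ball among the convex bodies in 3-space for which the projection area
and the largest section area differ by a constant: a nontrivial one has constant positive normal
variance on the great circles; so it is not symmetric in a plane.
-/

set_option autoImplicit false

open MeasureTheory Set
open scoped MeasureTheory Real

namespace Pool.Agent.Results.MP_8ad3e9_gt.NormalVariance

/-- Euclidean 3-space. -/
abbrev E3 : Type := EuclideanSpace ℝ (Fin 3)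

/-- The support function of `K`. -/
noncomputable def support (K : Set E3) (v : E3) : ℝ :=
  sSup ((fun x : E3 => (inner ℝ v x : ℝ)) '' K)

/-- `P_K(e)`: the area of the projection of `K` along the unit vector `e`. -/
noncomputable def projectionArea (K : Set E3) (e : E3) : ENNReal :=
  μH[2] ((fun x : E3 => x - (inner ℝ e x : ℝ) • e) '' K)

/-- `M_K(e)`: the largest area of a section of `K` orthogonal to the unit vector `e`. -/
noncomputable def sectionArea (K : Set E3) (e : E3) : ENNReal :=
  ⨆ t : ℝ, μH[2] (K ∩ {x : E3 | (inner ℝ e x : ℝ) = t})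

/-- Convex bodies for which `P_K - M_K` is constant; this holds if both functions are constant. -/
def ConstantDifference (K : Set E3) : Prop :=
  Convex ℝ K ∧ IsCompact K ∧ (interior K).Nonempty ∧
    ∃ d : ℝ, ∀ e : E3, ‖e‖ = 1 → (projectionArea K e).toReal - (sectionArea K e).toReal = d

/-- The function `phi` is a first variation of the unit ball in the class `ConstantDifference`:
there are bodies `K j` in the class, of support function `1 + ε j * phi + o(ε j)` on the sphere,
with the remainder measured in the Lipschitz norm. -/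
def FirstVariation (phi : E3 → ℝ) : Prop :=
  ∃ (K : ℕ → Set E3) (ε : ℕ → ℝ), (∀ j, ConstantDifference (K j)) ∧ (∀ j, 0 < ε j) ∧
    Filter.Tendsto ε Filter.atTop (nhds 0) ∧
    ∀ η : ℝ, 0 < η → ∀ᶠ j in Filter.atTop,
      (∀ v : E3, ‖v‖ = 1 → |support (K j) v - 1 - ε j * phi v| ≤ η * ε j) ∧
      ∀ v w : E3, ‖v‖ = 1 → ‖w‖ = 1 →
        |(support (K j) v - ε j * phi v) - (support (K j) w - ε j * phi w)| ≤ η * ε j * ‖v - w‖

/-- The variance, over the unit circle of the plane orthogonal to `b 0`, of the derivative of `phi`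
in the direction `b 0`. -/
noncomputable def normalVariance (phi : E3 → ℝ) (b : OrthonormalBasis (Fin 3) ℝ E3) : ℝ :=
  (2 * π)⁻¹ * (∫ t in (-π)..π, (fderiv ℝ phi (Real.cos t • b 1 + Real.sin t • b 2) (b 0)) ^ 2) -
    ((2 * π)⁻¹ * ∫ t in (-π)..π, fderiv ℝ phi (Real.cos t • b 1 + Real.sin t • b 2) (b 0)) ^ 2

open Pool.Agent.Helper85.BD in
private theorem constDiff_of {K : Set E3} (h : ConstantDifference K) : ConstDiff K :=
  constDiff_of_toReal h.2.1 h.2.2.2

open Pool.Agent.Helper85.BD in
private theorem normalVariance_eq (phi : E3 → ℝ) (b : OrthonormalBasis (Fin 3) ℝ E3) :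
    normalVariance phi b = VV phi b := rfl

/-- A continuously differentiable first variation of the unit ball among the convex bodies `K` with
`P_K - M_K` constant is affine on the sphere (a dilation and a translation), or its normal
variance is the same positive number on all great circles and it is not symmetric in any plane. -/
theorem result (phi : E3 → ℝ) (hphi : ContDiff ℝ 1 phi) (h : FirstVariation phi) :
    (∃ (r : ℝ) (a : E3), ∀ v : E3, ‖v‖ = 1 → phi v = r + (inner ℝ a v : ℝ)) ∨
    (∃ κ : ℝ, 0 < κ ∧ ∀ b : OrthonormalBasis (Fin 3) ℝ E3, normalVariance phi b = κ) ∧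
      ∀ e : E3, ‖e‖ = 1 →
        ∃ v : E3, ‖v‖ = 1 ∧ phi (v - (2 * (inner ℝ e v : ℝ)) • e) ≠ phi v := by
  obtain ⟨K, ε, hK, hε, hε0, hη⟩ := h
  have hV : ∀ b b' : OrthonormalBasis (Fin 3) ℝ E3,
      normalVariance phi b = normalVariance phi b' :=
    Pool.Agent.Helper85.BD.tangent hphi K ε
      (fun j => ⟨(hK j).1, (hK j).2.1, (hK j).2.2.1.mono interior_subset,
        constDiff_of (hK j)⟩) hε hε0
      (fun η hη0 => (hη η hη0).mono fun j hj => hj.1)
      (fun η hη0 => (hη η hη0).mono fun j hj => hj.2)
  by_cases h0 : ∃ b : OrthonormalBasis (Fin 3) ℝ E3, normalVariance phi b = 0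
  · obtain ⟨b, hb⟩ := h0
    exact Or.inl (Pool.Agent.Helper85.BD.affine_of_zero hphi fun b' => (hV b' b).trans hb)
  · refine Or.inr ⟨?_, fun e he => ?_⟩
    · obtain ⟨b, -⟩ := Pool.Agent.Helper85.BD.exists_basis
        (e := EuclideanSpace.single (0 : Fin 3) (1 : ℝ)) (by simp)
      refine ⟨normalVariance phi b, ?_, fun b' => hV b' b⟩
      have h1 : 0 ≤ normalVariance phi b := by
        rw [normalVariance_eq]
        refine Pool.Agent.Helper85.BD.vari_nonneg ?_
        have h2 : Continuous (fderiv ℝ phi) := hphi.continuous_fderiv one_ne_zero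
        refine (h2.comp ?_).clm_apply continuous_const
        unfold Pool.Agent.Helper85.BD.cir
        fun_prop
      exact lt_of_le_of_ne h1 fun h2 => h0 ⟨b, h2.symm⟩
    · obtain ⟨b, rfl⟩ := Pool.Agent.Helper85.BD.exists_basis he
      by_contra hno
      push Not at hno
      exact h0 ⟨b, Pool.Agent.Helper85.BD.VV_of_symm hphi b hno⟩

end Pool.Agent.Results.MP_8ad3e9_gt.NormalVariance
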