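import Pool.Agent.Helper83.BO.Ball

/-!
# MP_8ad3e9_gt: bodies with a planar shadow boundary

Let `K` be a convex body in `ℝ³` whose maximal section area and whose projection area are
constant. If some planar section of `K` is at least as large as some projection of `K`, then `K` is
a ball. This is the case if one shadow of `K` is the shadow of a planar section, in particular if
`K` is symmetric in a plane (orthogonally or obliquely) or a body of revolution.
-/

set_option autoImplicit false

open MeasureTheory Set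
open scoped MeasureTheory

namespace Pool.Agent.Results.MP_8ad3e9_gt.PlanarShadow

open Pool.Agent.Helper83.BO

/-- Some planar section of `K` is at least as large as some projection of `K`. -/
def LargeSection (K : Set (EuclideanSpace ℝ (Fin 3))) : Prop :=
  ∃ (e n : EuclideanSpace ℝ (Fin 3)) (s : ℝ), ‖e‖ = 1 ∧ ‖n‖ = 1 ∧
    μH[2] ((fun x : EuclideanSpace ℝ (Fin 3) => x - (inner ℝ e x) • e) '' K) ≤
      μH[2] (K ∩ {x : EuclideanSpace ℝ (Fin 3) | inner ℝ n x = s})

/-- For some direction `e` and some plane, every line in the direction `e` which meets `K` meets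
the section of `K` by the plane: the shadow of `K` is the shadow of a planar section. -/
def HasPlanarShadow (K : Set (EuclideanSpace ℝ (Fin 3))) : Prop :=
  ∃ (e n : EuclideanSpace ℝ (Fin 3)) (s : ℝ), e ≠ 0 ∧ n ≠ 0 ∧
    ∀ x ∈ K, ∃ l : ℝ, x + l • e ∈ K ∧ inner ℝ n (x + l • e) = s

/-- `K` is invariant under the (orthogonal or oblique) reflection in the plane `⟨n, x⟩ = s`, in the
direction `e`. -/
def ReflectionSymmetric (K : Set (EuclideanSpace ℝ (Fin 3))) : Prop :=
  ∃ (e n : EuclideanSpace ℝ (Fin 3)) (s : ℝ), inner ℝ n e ≠ (0 : ℝ) ∧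
    ∀ x ∈ K, x - (2 * (inner ℝ n x - s) / inner ℝ n e) • e ∈ K

/-- `K` is a body of revolution: whether `x` is in `K` depends only on the projection of `x` to an
axis and on the distance of `x` from the axis (equivalently, from a point of the axis). -/
def Revolution (K : Set (EuclideanSpace ℝ (Fin 3))) : Prop :=
  ∃ a u : EuclideanSpace ℝ (Fin 3), ‖u‖ = 1 ∧ ∀ x y : EuclideanSpace ℝ (Fin 3),
    inner ℝ u (x - a) = (inner ℝ u (y - a) : ℝ) → ‖x - a‖ = ‖y - a‖ → x ∈ K → y ∈ K

theorem largeSection_of_planar {K : Set (EuclideanSpace ℝ (Fin 3))} (h : HasPlanarShadow K) :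
    LargeSection K := by
  obtain ⟨e, n, s, he, hn, h⟩ := h
  have he' : ‖e‖ ≠ 0 := norm_ne_zero_iff.2 he
  have hn' : ‖n‖ ≠ 0 := norm_ne_zero_iff.2 hn
  have he1 : ‖(‖e‖⁻¹ • e : E3)‖ = 1 := by
    rw [norm_smul, norm_inv, norm_norm, inv_mul_cancel₀ he']
  have hn1 : ‖(‖n‖⁻¹ • n : E3)‖ = 1 := by
    rw [norm_smul, norm_inv, norm_norm, inv_mul_cancel₀ hn']
  refine ⟨‖e‖⁻¹ • e, ‖n‖⁻¹ • n, ‖n‖⁻¹ * s, he1, hn1, ?_⟩
  refine area_le_of_planar he1 fun x hx => ?_
  obtain ⟨l, h1, h2⟩ := h x hx
  have e1 : (l * ‖e‖) • (‖e‖⁻¹ • e) = l • e := by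
    rw [smul_smul, mul_assoc, mul_inv_cancel₀ he', mul_one]
  refine ⟨l * ‖e‖, ?_, ?_⟩
  · rw [e1]
    exact h1
  · rw [e1, inner_smul_left, h2]
    rfl

theorem planar_of_reflection {K : Set (EuclideanSpace ℝ (Fin 3))} (hconv : Convex ℝ K)
    (h : ReflectionSymmetric K) : HasPlanarShadow K := by
  obtain ⟨e, n, s, hne, h⟩ := h
  refine ⟨e, n, s, ?_, ?_, fun x hx => ?_⟩
  · rintro rfl
    exact hne (inner_zero_right _)
  · rintro rfl
    exact hne (inner_zero_left _)
  · refine ⟨-((inner ℝ n x - s) / inner ℝ n e), ?_, ?_⟩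
    · have h1 := hconv hx (h x hx) (a := 1 / 2) (b := 1 / 2) (by norm_num) (by norm_num)
        (by norm_num)
      have e1 : (1 / 2 : ℝ) • x + (1 / 2 : ℝ) • (x - (2 * (inner ℝ n x - s) / inner ℝ n e) • e) =
          x + (-((inner ℝ n x - s) / inner ℝ n e)) • e := by
        have e2 : (2 * (inner ℝ n x - s) / inner ℝ n e : ℝ) =
            2 * ((inner ℝ n x - s) / inner ℝ n e) := by ring
        rw [e2]
        module
      rw [e1] at h1
      exact h1
    · rw [inner_add_right, inner_smul_right]
      field_simp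
      ring

theorem reflection_of_revolution {K : Set (EuclideanSpace ℝ (Fin 3))} (h : Revolution K) :
    ReflectionSymmetric K := by
  obtain ⟨a, u, hu, h⟩ := h
  obtain ⟨e, he, heu⟩ := exists_orthogonal u
  have hee : inner ℝ e e = (1 : ℝ) := inner_self_one he
  refine ⟨e, e, inner ℝ e a, ?_, fun x hx => ?_⟩
  · rw [hee]
    exact one_ne_zero
  have hue : inner ℝ u e = (0 : ℝ) := by rw [real_inner_comm]; exact heu
  set c : ℝ := 2 * (inner ℝ e x - inner ℝ e a) / inner ℝ e e with hc
  have hc' : c = 2 * inner ℝ e (x - a) := by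
    rw [hc, hee, div_one, inner_sub_right]
  have e1 : x - c • e - a = (x - a) - c • e := by abel
  refine h x _ ?_ ?_ hx
  · rw [e1, inner_sub_right (𝕜 := ℝ) u (x - a), inner_smul_right, hue, mul_zero, sub_zero]
  · rw [e1]
    have h2 : ‖x - a - c • e‖ ^ 2 = ‖x - a‖ ^ 2 := by
      rw [norm_sub_sq_real, inner_smul_right, norm_smul, he, mul_one, Real.norm_eq_abs, sq_abs,
        real_inner_comm e, hc']
      ring
    exact ((sq_eq_sq₀ (norm_nonneg _) (norm_nonneg _)).1 h2).symm

/-- A convex body in `ℝ³` with constant maximal section area and constant projection area is a ball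
if some planar section is at least as large as some projection, in particular if some shadow is
the shadow of a planar section, in particular if the body is symmetric in a plane, in particular if
it is a body of revolution. -/
theorem result (K : Set (EuclideanSpace ℝ (Fin 3))) (hconv : Convex ℝ K) (hK : IsCompact K)
    (hint : (interior K).Nonempty)
    (hM : ∃ c : ENNReal, ∀ e : EuclideanSpace ℝ (Fin 3), ‖e‖ = 1 →
      (⨆ t : ℝ, μH[2] (K ∩ {x : EuclideanSpace ℝ (Fin 3) | inner ℝ e x = t})) = c)
    (hP : ∃ d : ENNReal, ∀ e : EuclideanSpace ℝ (Fin 3), ‖e‖ = 1 →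
      μH[2] ((fun x : EuclideanSpace ℝ (Fin 3) => x - (inner ℝ e x) • e) '' K) = d)
    (h : LargeSection K ∨ HasPlanarShadow K ∨ ReflectionSymmetric K ∨ Revolution K) :
    ∃ (z : EuclideanSpace ℝ (Fin 3)) (r : ℝ), K = Metric.closedBall z r := by
  have hL : LargeSection K := by
    rcases h with h | h | h | h
    · exact h
    · exact largeSection_of_planar h
    · exact largeSection_of_planar (planar_of_reflection hconv h)
    · exact largeSection_of_planar (planar_of_reflection hconv (reflection_of_revolution h))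
  obtain ⟨e, n, s, he, hn, hs⟩ := hL
  obtain ⟨c, hc⟩ := hM
  obtain ⟨d, hd⟩ := hP
  exact ball_of_const hconv hK hint hc hd he hn hs

end Pool.Agent.Results.MP_8ad3e9_gt.PlanarShadow
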