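import Pool.Agent.Helper85.BD.Final
import Pool.Agent.Helper85.BD.Result

/-!
# MP_8ad3e9_gt: polynomial deformations of the ball

A convex body in 3-space near a ball, for which the projection area and the largest section area
differ by a constant, cannot deviate from the balls mainly by a polynomial of bounded degree.
-/

set_option autoImplicit false

open MeasureTheory Set
open scoped MeasureTheory Real

namespace Pool.Agent.Results.MP_8ad3e9_gt.PolynomialDeformations

/-- Euclidean 3-space. -/
abbrev E3 : Type := EuclideanSpace ℝ (Fin 3)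

/-- The support function of `K`. -/
noncomputable def support (K : Set E3) (v : E3) : ℝ :=
  sSup ((fun x : E3 => (inner ℝ v x : ℝ)) '' K)

/-- `P_K(e)`: the area of the projection of `K` along the unit vector `e`. -/
noncomputable def projectionArea (K : Set E3) (e : E3) : ENNReal :=
  μH[2] ((fun x : E3 => x - (inner ℝ e x : ℝ) • e) '' K)

/-- `M_K(e)`: the largest area of a section of `K` orthogonal to the unit vector `e`. -/
noncomputable def sectionArea (K : Set E3) (e : E3) : ENNReal :=
  ⨆ t : ℝ, μH[2] (K ∩ {x : E3 | (inner ℝ e x : ℝ) = t})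

/-- Convex bodies for which `P_K - M_K` is constant; this holds if both functions are constant. -/
def ConstantDifference (K : Set E3) : Prop :=
  Convex ℝ K ∧ IsCompact K ∧ (interior K).Nonempty ∧
    ∃ d : ℝ, ∀ e : E3, ‖e‖ = 1 → (projectionArea K e).toReal - (sectionArea K e).toReal = d

open Pool.Agent.Helper85.BD in
private theorem constDiff_of {K : Set E3} (h : ConstantDifference K) : ConstDiff K :=
  constDiff_of_toReal h.2.1 h.2.2.2

/-- For every `N` there is `δ > 0` such that, for every convex body `K` within relative distance `δ`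
of a ball and with `P_K - M_K` constant: if the support function of `K` minus some polynomial of
degree at most `N` has Lipschitz constant at most `δ * C` on the unit sphere, then the support
function of a translate of `K` has Lipschitz constant at most `C` there; if `C = 0` then `K` is a
ball. -/
theorem result (N : ℕ) :
    ∃ δ : ℝ, 0 < δ ∧
      ∀ K : Set E3, ConstantDifference K → ∀ (r : ℝ) (a : E3), 0 < r →
        (∀ v : E3, ‖v‖ = 1 → |support K v - (inner ℝ a v : ℝ) - r| ≤ δ * r) →
        ∀ p : MvPolynomial (Fin 3) ℝ, p.totalDegree ≤ N → ∀ C : ℝ, 0 ≤ C →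
          (∀ v w : E3, ‖v‖ = 1 → ‖w‖ = 1 →
            |(support K v - MvPolynomial.eval (fun i => v i) p) -
              (support K w - MvPolynomial.eval (fun i => w i) p)| ≤ δ * C * ‖v - w‖) →
          ∃ z : E3,
            (∀ v w : E3, ‖v‖ = 1 → ‖w‖ = 1 →
              |(support K v - (inner ℝ z v : ℝ)) - (support K w - (inner ℝ z w : ℝ))| ≤
                C * ‖v - w‖) ∧
            (C = 0 → ∃ s : ℝ, K = Metric.closedBall z s) := by
  obtain ⟨δ, hδ, H⟩ := Pool.Agent.Helper85.BD.poly N
  refine ⟨δ, hδ, fun K hK r a hr h p hp C hC hL => ?_⟩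
  obtain ⟨z, hz⟩ := H K hK.1 hK.2.1 hK.2.2.1 (constDiff_of hK) r a hr h p hp C hC hL
  refine ⟨z, hz, fun hC0 => ?_⟩
  obtain ⟨v0, hv0⟩ : ∃ v : E3, ‖v‖ = 1 := ⟨EuclideanSpace.single 0 1, by simp⟩
  refine ⟨Pool.Agent.Helper85.BD.supp K v0 - (inner ℝ z v0 : ℝ),
    Pool.Agent.Helper85.BD.ball_of_supp hK.1 hK.2.1 (hK.2.2.1.mono interior_subset)
      fun v hv => ?_⟩
  have h1 := hz v v0 hv hv0
  rw [hC0, zero_mul] at h1
  have h2 := abs_eq_zero.1 (le_antisymm h1 (abs_nonneg _))
  linarith

end Pool.Agent.Results.MP_8ad3e9_gt.PolynomialDeformations
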