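import Pool.Agent.Helper35.PB.Body

/-!
# MP_8ad3e9_gt: polynomial support functions

A convex body in 3-space with constant projection area and constant maximal section area, whose
support function is a polynomial near one great circle, is a ball. If the support function is a
polynomial on the whole unit sphere, the section areas need not be constant.
-/

set_option autoImplicit false

open MeasureTheory Set
open scoped MeasureTheory Real

namespace Pool.Agent.Results.MP_8ad3e9_gt.PolynomialSupport

/-- Euclidean 3-space. -/
abbrev E3 : Type := EuclideanSpace ℝ (Fin 3)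

/-- The support function of `K`. -/
noncomputable def support (K : Set E3) (v : E3) : ℝ :=
  sSup ((fun x : E3 => (inner ℝ v x : ℝ)) '' K)

/-- `P_K(e)`: the area of the projection of `K` along the unit vector `e`. -/
noncomputable def projectionArea (K : Set E3) (e : E3) : ENNReal :=
  μH[2] ((fun x : E3 => x - (inner ℝ e x : ℝ) • e) '' K)

/-- `M_K(e)`: the largest area of a section of `K` orthogonal to the unit vector `e`. -/
noncomputable def sectionArea (K : Set E3) (e : E3) : ENNReal :=
  ⨆ t : ℝ, μH[2] (K ∩ {x : E3 | (inner ℝ e x : ℝ) = t})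

/-- `K` is a convex body. -/
def ConvexBody3 (K : Set E3) : Prop := Convex ℝ K ∧ IsCompact K ∧ (interior K).Nonempty

/-- `K` is a closed ball. -/
def IsBall (K : Set E3) : Prop := ∃ (z : E3) (r : ℝ), K = Metric.closedBall z r

/-- `P_K` is constant. -/
def ConstantProjections (K : Set E3) : Prop :=
  ∃ d : ENNReal, ∀ e : E3, ‖e‖ = 1 → projectionArea K e = d

/-- `M_K` is constant. -/
def ConstantSections (K : Set E3) : Prop :=
  ∃ d : ENNReal, ∀ e : E3, ‖e‖ = 1 → sectionArea K e = d

/-- The support function of `K` is the polynomial `p` at the unit vectors `v` with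
`|⟨e0, v⟩| < ε`. -/
def PolynomialNear (K : Set E3) (p : MvPolynomial (Fin 3) ℝ) (e0 : E3) (ε : ℝ) : Prop :=
  ∀ v : E3, ‖v‖ = 1 → |(inner ℝ e0 v : ℝ)| < ε →
    support K v = MvPolynomial.eval (fun i => v i) p

/-- Let `K` be a convex body in 3-space with constant projection area, whose support function is a
polynomial on the neighbourhood `|⟨e0, v⟩| < ε` of the great circle orthogonal to `e0` (the whole
sphere if `1 < ε`). If the maximal section area is constant too, or if `1 < ε`, then `K` is a
ball. -/
theorem result (K : Set E3) (hK : ConvexBody3 K) (hP : ConstantProjections K)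
    (p : MvPolynomial (Fin 3) ℝ) (e0 : E3) (he0 : ‖e0‖ = 1) (ε : ℝ) (hε : 0 < ε)
    (hp : PolynomialNear K p e0 ε) (h : ConstantSections K ∨ 1 < ε) : IsBall K := by
  obtain ⟨hc, hcpt, hint⟩ := hK
  obtain ⟨d, hd⟩ := hP
  rcases h with ⟨m, hm⟩ | h1
  · exact Pool.Agent.Helper35.PB.ball_of_band hcpt hc hint hd hm he0 hε hp
  · refine Pool.Agent.Helper35.PB.ball_of_poly hcpt hc hint hd (p := p) fun v hv => ?_
    refine hp v hv (lt_of_le_of_lt (abs_real_inner_le_norm e0 v) ?_)
    rw [he0, hv, one_mul]
    exact h1

end Pool.Agent.Results.MP_8ad3e9_gt.PolynomialSupport
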